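import Pool.Agent.H28.LF.F1

/-!
Project LF, row RLY: the relation on average over the primes of a good scale.
-/

set_option autoImplicit false

open MeasureTheory ProbabilityTheory Filter Topology Finset
open scoped Nat ENNReal

namespace Pool.Agent.H84.LF

open Pool.Agent.H28.LF
open Pool.Agent.H24.T2 (Pset)
open Pool.Agent.H67.AG (avgP)

lemma avgP_add (m : ℕ) (f g : ℕ → ℝ) :
    avgP 2 m (fun p => f p + g p) = avgP 2 m f + avgP 2 m g := by
  unfold avgP
  rw [sum_add_distrib, add_div]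

lemma avgP_mul (m : ℕ) (c : ℝ) (f : ℕ → ℝ) : avgP 2 m (fun p => c * f p) = c * avgP 2 m f := by
  unfold avgP
  rw [← mul_sum, mul_div_assoc]

lemma avgP_const (m : ℕ) (hne : (Pset 2 m).Nonempty) (c : ℝ) : avgP 2 m (fun _ => c) = c := by
  unfold avgP
  have h : ((Pset 2 m).card : ℝ) ≠ 0 := by exact_mod_cast (card_pos.2 hne).ne'
  rw [sum_const, nsmul_eq_mul, mul_comm, mul_div_assoc, div_self h, mul_one]

lemma avgP_mono (m : ℕ) {f g : ℕ → ℝ} (h : ∀ p ∈ Pset 2 m, f p ≤ g p) :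
    avgP 2 m f ≤ avgP 2 m g :=
  div_le_div_of_nonneg_right (sum_le_sum h) (Nat.cast_nonneg _)

lemma avgP_sum (m : ℕ) (J : Finset ℕ) (f : ℕ → ℕ → ℝ) :
    avgP 2 m (fun p => ∑ j ∈ J, f j p) = ∑ j ∈ J, avgP 2 m (f j) := by
  unfold avgP
  rw [sum_comm, sum_div]

open Classical in
lemma avgP_ind (m : ℕ) (X : Finset ℕ) (t : ℝ) (hX : (X.card : ℝ) ≤ t * (Pset 2 m).card)
    (hne : (Pset 2 m).Nonempty) : avgP 2 m (fun p => if p ∈ X then (1 : ℝ) else 0) ≤ t := by
  unfold avgP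
  have h : (0 : ℝ) < ((Pset 2 m).card : ℝ) := by exact_mod_cast card_pos.2 hne
  rw [div_le_iff₀ h]
  refine le_trans ?_ hX
  rw [sum_ite_mem, sum_const, nsmul_eq_mul, mul_one]
  exact_mod_cast card_le_card inter_subset_right

open Classical in
theorem pf_RLY (hW : T_WBD) : T_RLY := by
  intro u ix c z γ₀ ν F B θ K L i m r hc hF hB hθ hG hLK hg
  have hprob := hc.prob
  obtain ⟨X, hX, hdec⟩ := hg.dec
  have hi : (0 : ℝ) < (i : ℝ) + 1 := by positivity
  set N : ℕ → ℝ := fun p => ν.real {ω | Wd shY (fun ω => ix (ng (btY ω))) (L + K) p ω ∈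
    BadW u ix c z K L (θ p)} with hN
  have hN1 : ∀ p, N p ≤ 1 := fun p => measureReal_le_one
  have hN0 : ∀ p, 0 ≤ N p := fun p => measureReal_nonneg
  have key : ∀ p ∈ Pset 2 m, sY F ν p * N p ≤
      (20 * (p * ν.real (flY p ∩ xiY p ⁻¹' (B r))) +
        ∑ j ∈ Icc 1 (L + K), 10 * (p * ν.real (flY p ∩ ExY p j))) +
      (1 / ((i : ℝ) + 1) + if p ∈ X then (1 : ℝ) else 0) := by
    intro p hp
    have hpp : p.Prime := (mem_filter.1 hp).2.1
    have hp0 : (0 : ℝ) ≤ (p : ℝ) := Nat.cast_nonneg p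
    have hnn : 0 ≤ 20 * (p * ν.real (flY p ∩ xiY p ⁻¹' (B r))) +
        ∑ j ∈ Icc 1 (L + K), 10 * (p * ν.real (flY p ∩ ExY p j)) := by
      refine add_nonneg (by positivity) (sum_nonneg fun j _ => by positivity)
    have hii : 0 ≤ 1 / ((i : ℝ) + 1) := by positivity
    unfold sY
    split_ifs with h1 h2
    · rw [one_mul]
      have := hN1 p
      linarith
    · rw [one_mul, add_zero]
      have hFp : ∀ᵐ ω ∂ν, xiY p ω ∈ F := by
        have hm : MeasurableSet (xiY p ⁻¹' F) :=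
          ((measurable_pi_apply p).comp ((measurable_snd.comp measurable_snd).comp
            (measurable_pi_apply 0))) hF
        have h3 : ν (xiY p ⁻¹' F) = 1 := by
          rw [← ENNReal.toReal_eq_one_iff]
          exact h1
        exact (prob_compl_eq_zero_iff hm).2 h3
      have h4 := hW u ix c z (θ p) ν F (B r) K L p hc hpp (hB r) (hθ p hpp) hFp (hG p hpp)
      set G : Set (Fin i → Bool × Bool) := {v | (fun k : Fin (L + K) =>
        ix (ng (v ⟨k, lt_of_lt_of_le k.2 hLK⟩))) ∈ BadW u ix c z K L (θ p)} with hGd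
      have h5 : {ω : Yi | Wa shY btY i p ω ∈ G} = {ω : Yi | Wd shY (fun ω => ix (ng (btY ω)))
        (L + K) p ω ∈ BadW u ix c z K L (θ p)} := rfl
      have h6 := hdec p hp h2 G
      rw [h5] at h6
      refine h6.trans (add_le_add_left ?_ _)
      have h7 : 10 * (p * (2 * ν.real (flY p ∩ xiY p ⁻¹' (B r)) +
          ∑ j ∈ Icc 1 (L + K), ν.real (flY p ∩ ExY p j))) =
          20 * (p * ν.real (flY p ∩ xiY p ⁻¹' (B r))) +
            ∑ j ∈ Icc 1 (L + K), 10 * (p * ν.real (flY p ∩ ExY p j)) := by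
        rw [← mul_sum, ← mul_sum]
        ring
      rw [← h7]
      exact mul_le_mul_of_nonneg_left (mul_le_mul_of_nonneg_left h4 hp0) (by norm_num)
    · rw [zero_mul]
      linarith
    · rw [zero_mul, add_zero]
      linarith
  refine (avgP_mono m key).trans ?_
  rw [avgP_add, avgP_add, avgP_add, avgP_mul, avgP_sum, avgP_const m hg.ne]
  have h1 := hg.bad r
  have h2 := avgP_ind m X _ hX hg.ne
  have h3 : ∑ j ∈ Icc 1 (L + K), avgP 2 m (fun p => 10 * (p * ν.real (flY p ∩ ExY p j))) ≤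
      10 / ((i : ℝ) + 1) := by
    have h4 : ∀ j ∈ Icc 1 (L + K), avgP 2 m (fun p => 10 * (p * ν.real (flY p ∩ ExY p j))) ≤
        10 * (1 / ((i : ℝ) + 1) ^ 2) := by
      intro j hj
      rw [avgP_mul]
      have hj' := mem_Icc.1 hj
      exact mul_le_mul_of_nonneg_left (hg.exc j (by omega) (by omega)) (by norm_num)
    refine (sum_le_sum h4).trans ?_
    rw [sum_const, nsmul_eq_mul, Nat.card_Icc]
    have h5 : ((L + K + 1 - 1 : ℕ) : ℝ) ≤ (i : ℝ) + 1 := by
      have : L + K + 1 - 1 ≤ i + 1 := by omega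
      exact_mod_cast this
    calc ((L + K + 1 - 1 : ℕ) : ℝ) * (10 * (1 / ((i : ℝ) + 1) ^ 2))
        ≤ ((i : ℝ) + 1) * (10 * (1 / ((i : ℝ) + 1) ^ 2)) :=
          mul_le_mul_of_nonneg_right h5 (by positivity)
      _ = 10 / ((i : ℝ) + 1) := by field_simp
  have h8 : (12 : ℝ) / ((i : ℝ) + 1) = 10 / ((i : ℝ) + 1) + (1 / ((i : ℝ) + 1) +
      1 / ((i : ℝ) + 1)) := by ring
  have h9 : (20 : ℝ) / 2 ^ r = 20 * (1 / 2 ^ r) := by ring
  rw [h8, h9, ← add_assoc]
  have h10 : 20 * avgP 2 m (fun p => p * ν.real (flY p ∩ xiY p ⁻¹' (B r))) ≤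
      20 * (1 / 2 ^ r) := mul_le_mul_of_nonneg_left h1 (by norm_num)
  linarith

end Pool.Agent.H84.LF
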