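import Pool.Agent.H28.LF.F1

/-!
Project LF, rows TPL and WBD: translation by `p L` on the multiples of `p`; bad words.
-/

set_option autoImplicit false

open MeasureTheory ProbabilityTheory Filter Topology Finset
open scoped Nat ENNReal

namespace Pool.Agent.H84.LF

open Pool.Agent.H28.LF

lemma meas_flY (p : ℕ) : MeasurableSet (flY p) := by
  have h : Measurable fun ω : Yi => (ω 0).2.1 p :=
    (measurable_pi_apply p).comp ((measurable_fst.comp measurable_snd).comp (measurable_pi_apply 0))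
  exact h (measurableSet_singleton true)

lemma meas_xiY (p : ℕ) : Measurable (xiY p) :=
  (measurable_pi_apply p).comp ((measurable_snd.comp measurable_snd).comp (measurable_pi_apply 0))

lemma meas_btY : Measurable btY := measurable_fst.comp (measurable_pi_apply 0)

lemma meas_shX_iter (L : ℕ) : Measurable (shX^[L]) := shX.measurable.iterate L

theorem pf_TPL : T_TPL := by
  intro ν p L B hc hp hB
  have hprob := hc.prob
  have hmp : MeasurePreserving (shY^[p]) ν ν := hc.erg.toMeasurePreserving.iterate p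
  induction L with
  | zero => rfl
  | succ L ih =>
    rw [← ih]
    have hm : MeasurableSet (flY p ∩ {ω | shX^[L] (xiY p ω) ∈ B}) :=
      (meas_flY p).inter ((meas_shX_iter L).comp (meas_xiY p) hB)
    rw [← hmp.measureReal_preimage hm.nullMeasurableSet]
    refine measureReal_congr ?_
    filter_upwards [hc.stf p hp, hc.per p hp.pos] with ω h1 h2
    refine propext ?_
    change (ω ∈ flY p ∧ shX^[L + 1] (xiY p ω) ∈ B) ↔
      (shY^[p] ω ∈ flY p ∧ shX^[L] (xiY p (shY^[p] ω)) ∈ B)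
    constructor
    · rintro ⟨h3, h4⟩
      refine ⟨h2.1.1 h3, ?_⟩
      rw [h1 h3, ← Function.iterate_succ_apply]
      exact h4
    · rintro ⟨h3, h4⟩
      have h5 := h2.1.2 h3
      refine ⟨h5, ?_⟩
      rw [h1 h5, ← Function.iterate_succ_apply] at h4
      exact h4

lemma ng_ng (b : Bool × Bool) : ng (ng b) = b := by
  obtain ⟨a, b⟩ := b
  cases a <;> rfl

theorem pf_WBD (hP : T_TPL) : T_WBD := by
  intro u ix c z t ν F B K L p hc hp hB ht hF hG
  have hprob := hc.prob
  set E1 : Set Yi := flY p ∩ xiY p ⁻¹' B with hE1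
  set E2 : Set Yi := flY p ∩ {ω | shX^[L] (xiY p ω) ∈ B} with hE2
  have h1 : ν.real (flY p ∩ {ω | Wd shY (fun ω => ix (ng (btY ω))) (L + K) p ω ∈
      BadW u ix c z K L t}) ≤ ν.real ((E1 ∪ E2) ∪ ⋃ j ∈ Icc 1 (L + K), (flY p ∩ ExY p j)) := by
    refine ENNReal.toReal_mono (measure_ne_top ν _) (measure_mono_ae ?_)
    filter_upwards [ht, hF, hG] with ω h2 h3 h4
    intro h5
    obtain ⟨h6, h7⟩ := h5
    change ω ∈ (E1 ∪ E2) ∪ ⋃ j ∈ Icc 1 (L + K), (flY p ∩ ExY p j)
    by_contra h8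
    rw [Set.mem_union, not_or, Set.mem_union, not_or] at h8
    obtain ⟨⟨h9, h10⟩, h11⟩ := h8
    have h12 : xiY p ω ∉ B := fun h => h9 ⟨h6, h⟩
    have h13 : shX^[L] (xiY p ω) ∉ B := fun h => h10 ⟨h6, h⟩
    have h14 : ∀ j : ℕ, 1 ≤ j → j ≤ L + K → ω ∉ ExY p j := by
      intro j hj1 hj2 hj3
      refine h11 (Set.mem_iUnion₂.2 ⟨j, mem_Icc.2 ⟨hj1, hj2⟩, h6, hj3⟩)
    refine h7 ⟨wX (xiY p ω), fun i => ?_, ?_⟩
    · have h15 : btY (shY^[p * ((i : ℕ) + 1)] ω) = ng (xiY p ω (((i : ℕ) + 1 : ℕ) : ℤ)).1 :=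
        not_not.1 (h14 ((i : ℕ) + 1) (by omega) (by omega))
      change ix (ng (btY (shY^[p * ((i : ℕ) + 1)] ω))) = ix (xiY p ω (((i : ℕ) : ℤ) + 1)).1
      rw [h15, ng_ng]
      push_cast
      rfl
    · have h16 := h4 h3 h12 h13
      rwa [h2] at h16
  refine h1.trans ((measureReal_union_le _ _).trans ?_)
  refine add_le_add ((measureReal_union_le _ _).trans ?_) (measureReal_biUnion_finset_le _ _)
  have h2 : ν.real E2 = ν.real E1 := hP ν p L B hc hp hB
  rw [h2, two_mul]

end Pool.Agent.H84.LF
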